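import Pool.Agent.U998.ZC.Theory
import Pool.Agent.U213.PA.Three

/-!
# Finite generation in the top weight over prime fields
-/

set_option autoImplicit false

open CategoryTheory AlgebraicGeometry Pool.Agent.Y116.UV Pool.Agent.U213.PA Pool.Agent.U213.BP
  Pool.Agent.U213.EM Pool.Agent.U586.MU Pool.Agent.Q282.UZ

namespace Pool.Agent.U998.ZC

universe v

section field

variable {k : Type} [Field k] (W : Theory.{v} k)

/-- in one degree -/
theorem fin_of_vanish {X : Sch k} {d : ℕ} (hX : PR X d) {m : ℤ} (hm : m < 2 * d)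
    (hs : Subsingleton (W.C (2 * d - m) X).A) : Finite (W.H m X) := by
  obtain ⟨a, b, c, h1, h2, h3⟩ := W.coefficients X d hX
  obtain ⟨n, rfl⟩ : ∃ n, m = n + 1 := ⟨m - 1, by ring⟩
  have hT : Finite (W.T n X) := W.weights X d hX n (by omega)
  have hsurj : Function.Surjective (c n) := fun x => (h3 n x).1 (Subsingleton.elim _ _)
  exact Finite.of_surjective _ hsurj

theorem one_tfae {X : Sch k} {d : ℕ} (hX : PR X d) {m : ℤ} (hm : m < 2 * d) :
    (AddGroup.FG (W.H m X) ↔ Subsingleton (W.C (2 * d - m) X).A) ∧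
    (AddGroup.FG (W.H m X) ↔ Finite (W.H m X)) :=
  ⟨fg_iff W hX hm, fun h => fin_of_vanish W hX hm ((fg_iff W hX hm).1 h), fun h =>
    Module.Finite.iff_addGroup_fg.1 Module.Finite.of_finite⟩

/-- the rational groups in the degrees from `1` to `J - 1` -/
def Van (J : ℤ) (n : ℕ) : Prop :=
  ∀ (X : Sch k) (d : ℕ), PR X d → d ≤ n → ∀ j : ℤ, 1 ≤ j → j < J → Subsingleton (W.C j X).A

theorem van_iff_fg (J : ℤ) (n : ℕ) : Van W J n ↔
    ∀ (X : Sch k) (d : ℕ), PR X d → d ≤ n → ∀ m : ℤ, 2 * d - J < m → m ≤ 2 * d → AddGroup.FG (W.H m X) := by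
  constructor
  · intro h X d hX hd m h1 h2
    rcases h2.lt_or_eq with h3 | rfl
    · exact (fg_iff W hX h3).2 (h X d hX hd _ (by omega) (by omega))
    · exact W.classField X d hX
  · intro h X d hX hd j h1 h2
    have h3 := (fg_iff W hX (m := 2 * d - j) (by omega)).1 (h X d hX hd _ (by omega) (by omega))
    have h4 : 2 * (d : ℤ) - (2 * d - j) = j := by ring
    rwa [h4] at h3

theorem van_iff_upto {J : ℤ} (hJ : 1 ≤ J) (n : ℕ) : Van W J n ↔
    ∀ X : Sch k, FT True X → topologicalKrullDim X.left ≤ n → Upto W J X := by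
  constructor
  · intro h X hX hn
    refine Pool.Agent.U213.EM.of_class_dim (dev_upto W J) (alt_upto W J) n ?_ X hX hn
    rintro Y ⟨e, hY⟩ hYn
    rw [hY.2.2.2.2] at hYn
    exact (upto_iff W hY hJ).2 fun j h1 h2 => h Y e hY (by exact_mod_cast hYn) j h1 h2
  · intro h X d hX hd
    refine (upto_iff W hX hJ).1 (h X hX.1 ?_)
    rw [hX.2.2.2.2]
    exact_mod_cast hd

theorem all_dim_iff (n : ℕ) : (∀ J, Van W J n) ↔
    ∀ X : Sch k, FT True X → topologicalKrullDim X.left ≤ n → All W X := by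
  constructor
  · intro h X hX hn
    refine (all_iff_upto W).2 fun J => ?_
    have h1 := (van_iff_upto W (J := max J 1) (le_max_right _ _) n).1 (h _) X hX hn
    exact ⟨fun j hj => h1.1 j (lt_of_lt_of_le hj (le_max_left _ _)), h1.epi W (le_max_left _ _)⟩
  · intro h J X d hX hd j h1 _
    refine (all_iff' W hX).1 (h X hX.1 ?_) j h1
    rw [hX.2.2.2.2]
    exact_mod_cast hd

/-- the range `0 ≤ m ≤ 2d` in dimension at most `n` -/
theorem range_iff (n : ℕ) : Van W (2 * n + 1) n ↔
    ∀ (X : Sch k) (d : ℕ), PR X d → d ≤ n → ∀ m : ℤ, 0 ≤ m → m ≤ 2 * d → AddGroup.FG (W.H m X) := by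
  constructor
  · intro h X d hX hd m h1 h2
    exact (van_iff_fg W _ n).1 h X d hX hd m (by omega) h2
  · intro h X d hX hd j h1 h2
    obtain ⟨Y, hY, hf⟩ := exists_factor W hX (n - d)
    refine hf j ?_
    rw [Nat.add_sub_cancel' hd] at hY
    have h3 := (fg_iff W hY (m := 2 * n - j) (by omega)).1 (h Y n hY le_rfl _ (by omega) (by omega))
    have h4 : 2 * (n : ℤ) - (2 * n - j) = j := by ring
    rwa [h4] at h3

/-- two degrees lower -/
theorem upto_shift (hR : ShortPresents k) {J : ℤ} (h : ForThreeTerms (Upto W (J + 2))) (X : Sch k)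
    (hX : FT True X) : Upto W J X := by
  refine of_affine' (dev_upto W J).iso (dev_upto W J).total (fun A _ _ _ => ?_) X hX
  have h1 : Upto W (J + 2) (aff k (LaurentPolynomial (LaurentPolynomial A))) :=
    dev_three (dev_upto W (J + 2)) h hR A
  have : Algebra.FiniteType k (LaurentPolynomial A) := ft_laurent (R := k) A
  have h2 : J + 2 = J + 1 + 1 := by ring
  refine ⟨fun j hj => ?_, ?_⟩
  · exact Cmp.factor (W.torus j A) (Cmp.factor (W.torus (j + 1) (LaurentPolynomial A)) (h1.1 _ (by omega)))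
  · rw [h2] at h1
    exact factor_epi (W.torus J A) (factor_epi (W.torus (J + 1) (LaurentPolynomial A)) h1.2)

end field

section prime

variable {p : ℕ} [Fact p.Prime] (W : Theory.{v} (ZMod p))

theorem all_iff_three : (∀ n J, Van W J n) ↔ ForThreeTerms (All W) := by
  have hR : ShortPresents (ZMod p) := short_presents ZMod.intCast_surjective
  rw [← three_iff hR (clo_all W)]
  constructor
  · intro h X hX
    have h0 : ∀ Y : Sch (ZMod p), (∃ e : ℕ, PR Y e) → All W Y := by
      rintro Y ⟨e, hY⟩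
      exact (all_iff' W hY).2 fun j hj => h e (j + 1) Y e hY le_rfl j hj (by omega)
    exact Pool.Agent.U213.EM.of_class ⟨0, (ringKrullDim_eq_zero_of_field (ZMod p)).le⟩ (dev_all W) (alt_all W) h0 X hX
  · intro h n J X d hX _ j h1 _
    exact (all_iff' W hX).1 (h X hX.1) j h1

theorem upto_three {J : ℤ} (hJ : 1 ≤ J) (h : ForThreeTerms (Upto W (J + 2))) (n : ℕ) : Van W J n := by
  have hR : ShortPresents (ZMod p) := short_presents ZMod.intCast_surjective
  exact (van_iff_upto W hJ n).2 fun X hX _ => upto_shift W hR h X hX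

/-- realization spaces and unit equations -/
theorem real_iff (J : ℤ) {K Sm : Sch (ZMod p) → Prop} (hK : Hered True K) (hS : Generic Sm) :
    ((∀ X : Sch (ZMod p), FT True X → K X → Upto W J X) ↔
      ∀ (E : Type) [Fintype E] (π : Cfg E), K (π.space (ZMod p)) → Good Sm (π.space (ZMod p)) →
        Upto W J (π.space (ZMod p))) ∧
    ((∀ X : Sch (ZMod p), FT True X → K X → Upto W J X) ↔
      ∀ (I : Type) [Fintype I] (S : Set (SBin (I ⊕ I))), K (uspace (ZMod p) S) →
        Good Sm (uspace (ZMod p) S) → Upto W J (uspace (ZMod p) S)) :=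
  three_gen (presents_zero_one (ZMod.intCast_surjective (n := p)))
    ⟨(dev_upto W J).iso, (dev_upto W J).total⟩ hK hS

end prime

end Pool.Agent.U998.ZC
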