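import Pool.Agent.U213.PA.Lin
import Pool.Agent.U213.EM.Main
import Pool.Agent.U586.MU.GenMain

/-!
# Zero-cycles on schemes over finite fields: comparison with weight homology, formally
-/

set_option autoImplicit false

open CategoryTheory AlgebraicGeometry Pool.Agent.Y116.UV Pool.Agent.U213.PA Pool.Agent.U213.BP
  Pool.Agent.U213.EM

namespace Pool.Agent.U998.ZC

universe v

/-- The sequence `... → Z j → X j → U j → Z (j - 1) → ...` is exact for suitable morphisms of comparison maps, on the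
side of the sources and on the side of the targets. -/
def LongExact (Z X U : ℤ → Cmp.{v}) : Prop :=
  ∃ (a : ∀ j, Cmp.Hom (Z j) (X j)) (b : ∀ j, Cmp.Hom (X j) (U j)) (d : ∀ j, Cmp.Hom (U (j + 1)) (Z j)),
    (∀ j, Cmp.Exact (a j) (b j)) ∧ (∀ j, Cmp.Exact (b (j + 1)) (d j)) ∧ ∀ j, Cmp.Exact (d j) (a j)

/-- `X` is separated of finite type over `R`, proper, regular, connected, and of Krull dimension `d`. -/
def PR {R : Type} [CommRing R] (X : Sch R) (d : ℕ) : Prop :=
  FT True X ∧ IsProper X.hom ∧ Pool.Agent.U213.EM.Regular X.left ∧ ConnectedSpace X.left ∧ topologicalKrullDim X.left = d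

/-- The groups of zero-cycles of the schemes over the finite field `k`, and their known properties which are used. -/
structure Theory (k : Type) [Field k] where
  /-- For a separated scheme `X` of finite type over `k` the comparison map from the rational higher Chow group
  `CH_0(X, j) ⊗ ℚ` (Borel-Moore motivic homology) to the weight homology `H_j(CH_0(W(X)) ⊗ ℚ)`, where `W(X)` is the weight
  complex of Gillet and Soulé. -/
  C : ℤ → Sch k → Cmp.{v}
  /-- isomorphic schemes -/
  iso : ∀ (j : ℤ) (X Y : Sch k), FT True X → Nonempty (X ≅ Y) → Cmp.IsIso (C j X) (C j Y)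
  /-- the groups of the empty scheme are zero -/
  empty : ∀ (j : ℤ) (X : Sch k), IsEmpty X.left → Subsingleton (C j X).A ∧ Subsingleton (C j X).B
  /-- the localization sequences of a closed subscheme `Z` of `X` with open complement `U` -/
  sequence : ∀ {Z X U : Sch k} (a : Z ⟶ X) (b : U ⟶ X), FT True X → IsTriple a b →
    LongExact (fun j => C j Z) (fun j => C j X) (fun j => C j U)
  /-- the groups of `X × 𝔾_m` in degree `j + 1` contain those of `X` in degree `j` as direct factors -/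
  torus : ∀ (j : ℤ) (A : Type) [CommRing A] [Algebra k A] [Algebra.FiniteType k A],
    Cmp.IsFactor (C j (aff k A)) (C (j + 1) (aff k (LaurentPolynomial A)))
  /-- for a proper regular scheme the weight homology is `CH_0(X) ⊗ ℚ` in degree `0`, and zero in the other degrees -/
  pure : ∀ (X : Sch k) (d : ℕ), PR X d → (C 0 X).Good ∧ ∀ j : ℤ, j ≠ 0 → Subsingleton (C j X).B
  /-- `CH_0(X, j) = 0` for `j < 0` -/
  negative : ∀ (X : Sch k) (d : ℕ), PR X d → ∀ j : ℤ, j < 0 → Subsingleton (C j X).A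
  /-- `X` is a direct factor of `X × ℙ¹` -/
  product : ∀ (X : Sch k) (d : ℕ), PR X d → ∃ Y : Sch k, PR Y (d + 1) ∧ ∀ j : ℤ, Cmp.IsFactor (C j X) (C j Y)
  /-- de Jong's alterations, with pull-back and push-forward for a finite flat morphism `V → Spec A[1/w]` -/
  alteration : ∀ (d : ℕ) (A : Type) [CommRing A] [IsDomain A] [Algebra k A] [Algebra.FiniteType k A],
    ringKrullDim A ≤ d → ∃ (w : A) (Z Y V : Sch k) (i : Z ⟶ Y) (o : V ⟶ Y) (e : ℕ), w ≠ 0 ∧ IsTriple i o ∧
      PR Y e ∧ e ≤ d ∧ topologicalKrullDim Z.left < d ∧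
      ∀ j : ℤ, Cmp.IsFactor (C j (aff k (Localization.Away w))) (C j V)
  /-- For a proper regular connected scheme `X` of dimension `d`: `H m X = H^m(X_et, ℤ(d))`. -/
  H : ℤ → Sch k → Type v
  [grpH : ∀ m X, AddCommGroup (H m X)]
  /-- For a proper regular connected scheme `X` of dimension `d`: `T m X = H^m(X_et, ℚ/ℤ(d))`. -/
  T : ℤ → Sch k → Type v
  [grpT : ∀ m X, AddCommGroup (T m X)]
  /-- the exact sequence of the coefficients `ℤ(d) → ℚ(d) → ℚ/ℤ(d)`; `H^m(X_et, ℚ(d)) = CH_0(X, 2d - m) ⊗ ℚ` -/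
  coefficients : ∀ (X : Sch k) (d : ℕ), PR X d →
    ∃ (a : ∀ m : ℤ, H m X →+ (C (2 * d - m) X).A) (b : ∀ m : ℤ, (C (2 * d - m) X).A →+ T m X)
      (c : ∀ m : ℤ, T m X →+ H (m + 1) X), (∀ m, Function.Exact (a m) (b m)) ∧
        (∀ m, Function.Exact (b m) (c m)) ∧ ∀ m, Function.Exact (c m) (a (m + 1))
  /-- `H^m(X_et, ℚ/ℤ(d))` is finite for `m < 2d` (Deligne, Gabber, Milne) -/
  weights : ∀ (X : Sch k) (d : ℕ), PR X d → ∀ m : ℤ, m < 2 * d → Finite (T m X)
  /-- `H^(2d)(X_et, ℤ(d))` is finitely generated (unramified class field theory) -/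
  classField : ∀ (X : Sch k) (d : ℕ), PR X d → AddGroup.FG (H (2 * d) X)

attribute [instance] Theory.grpH Theory.grpT

/-! ### Algebra -/

/-- a rational vector space which is a finitely generated abelian group is zero -/
lemma subsingleton_of_fg {V : Type v} [AddCommGroup V] [Module ℚ V] (h : Module.Finite ℤ V) : Subsingleton V := by
  have hfg : (⊤ : Submodule ℤ V).FG := Module.finite_def.1 h
  have h2 : (⊤ : Submodule ℤ V) ≤ Ideal.span {(2 : ℤ)} • (⊤ : Submodule ℤ V) := by
    intro x _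
    have hx : x = (2 : ℤ) • ((2 : ℚ)⁻¹ • x) := by
      rw [← Int.cast_smul_eq_zsmul ℚ, smul_smul]
      norm_num
    rw [hx]
    exact Submodule.smul_mem_smul (Ideal.mem_span_singleton_self 2) trivial
  obtain ⟨r, hr, hr0⟩ := Submodule.exists_sub_one_mem_and_smul_eq_zero_of_fg_of_le_smul _ _ hfg h2
  have hrne : (r : ℚ) ≠ 0 := by
    intro h0
    have h1 : r = 0 := by exact_mod_cast h0
    rw [h1, Ideal.mem_span_singleton] at hr
    norm_num at hr
  have hz : ∀ x : V, x = 0 := by
    intro x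
    have h3 := hr0 x trivial
    rw [← Int.cast_smul_eq_zsmul ℚ] at h3
    exact (smul_eq_zero.1 h3).resolve_left hrne
  exact ⟨fun x y => by rw [hz x, hz y]⟩

/-- a homomorphism from a rational vector space to a finite group is zero -/
lemma zero_of_finite {V : Type v} {T : Type v} [AddCommGroup V] [Module ℚ V] [AddCommGroup T] (hT : Finite T)
    (f : V →+ T) (x : V) : f x = 0 := by
  have hN : (Nat.card T : ℚ) ≠ 0 := by
    have := Nat.card_pos (α := T)
    exact_mod_cast this.ne'
  have hx : x = Nat.card T • ((Nat.card T : ℚ)⁻¹ • x) := by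
    rw [← Nat.cast_smul_eq_nsmul ℚ, smul_smul, mul_inv_cancel₀ hN, one_smul]
  rw [hx, map_nsmul]
  exact card_nsmul_eq_zero'

variable {k : Type} [Field k] (W : Theory.{v} k)

/-- Finite generation and vanishing of the rational group, in one degree. -/
theorem fg_iff {X : Sch k} {d : ℕ} (hX : PR X d) {m : ℤ} (hm : m < 2 * d) :
    AddGroup.FG (W.H m X) ↔ Subsingleton (W.C (2 * d - m) X).A := by
  obtain ⟨a, b, c, h1, h2, h3⟩ := W.coefficients X d hX
  constructor
  · intro hfg
    have hT := W.weights X d hX m hm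
    have hsurj : Function.Surjective (a m) := fun x => (h1 m x).1 (zero_of_finite hT (b m) x)
    have hlin : Function.Surjective (a m).toIntLinearMap := hsurj
    have hfg' : Module.Finite ℤ (W.H m X) := Module.Finite.iff_addGroup_fg.2 hfg
    exact subsingleton_of_fg (Module.Finite.of_surjective (a m).toIntLinearMap hlin)
  · intro hs
    obtain ⟨n, rfl⟩ : ∃ n, m = n + 1 := ⟨m - 1, by ring⟩
    have hT : Finite (W.T n X) := W.weights X d hX n (by omega)
    have hsurj : Function.Surjective (c n) := fun x => (h3 n x).1 (Subsingleton.elim _ _)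
    have hfin : Finite (W.H (n + 1) X) := Finite.of_surjective _ hsurj
    exact Module.Finite.iff_addGroup_fg.1 Module.Finite.of_finite

/-! ### Closure properties -/

/-- The comparison maps of `X` are isomorphisms in the degrees `j < J` and surjective in the degree `J`. -/
def Upto (J : ℤ) (X : Sch k) : Prop :=
  (∀ j < J, (W.C j X).Good) ∧ Function.Surjective (W.C J X).e

/-- All comparison maps of `X` are isomorphisms. -/
def All (X : Sch k) : Prop := ∀ j : ℤ, (W.C j X).Good

/-- four lemma -/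
theorem four {C D E F : Cmp.{v}} (f : Cmp.Hom C D) (g : Cmp.Hom D E) (h : Cmp.Hom E F)
    (h1 : Cmp.Exact f g) (h2 : Cmp.Exact g h) (hC : Function.Surjective C.e) (hE : Function.Surjective E.e)
    (hF : Function.Injective F.e) : Function.Surjective D.e :=
  LinearMap.surjective_of_surjective_of_surjective_of_injective f.a g.a h.a f.b g.b h.b C.e D.e E.e F.e
    (by ext x; exact (f.comm x).symm) (by ext x; exact (g.comm x).symm) (by ext x; exact (h.comm x).symm)
    h2.1 h1.2 h2.2 hC hE hF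

/-- five lemma -/
theorem five {C D E F G : Cmp.{v}} (f : Cmp.Hom C D) (g : Cmp.Hom D E) (h : Cmp.Hom E F) (e : Cmp.Hom F G)
    (h1 : Cmp.Exact f g) (h2 : Cmp.Exact g h) (h3 : Cmp.Exact h e) (hC : Function.Surjective C.e) (hD : D.Good)
    (hF : F.Good) (hG : Function.Injective G.e) : E.Good :=
  LinearMap.bijective_of_surjective_of_bijective_of_bijective_of_injective f.a g.a h.a e.a
    f.b g.b h.b e.b C.e D.e E.e F.e G.e (by ext x; exact (f.comm x).symm)
    (by ext x; exact (g.comm x).symm) (by ext x; exact (h.comm x).symm)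
    (by ext x; exact (e.comm x).symm) h1.1 h2.1 h3.1 h1.2 h2.2 h3.2 hC hD hF hG

theorem factor_epi {C D : Cmp.{v}} (h : Cmp.IsFactor C D) (hD : Function.Surjective D.e) :
    Function.Surjective C.e := by
  obtain ⟨s, r, -, h2⟩ := h
  intro y
  obtain ⟨x, hx⟩ := hD (s.b y)
  exact ⟨r.a x, by rw [r.comm, hx, h2]⟩

lemma Upto.epi {J : ℤ} {X : Sch k} (h : Upto W J X) {j : ℤ} (hj : j ≤ J) : Function.Surjective (W.C j X).e := by
  rcases hj.lt_or_eq with h1 | rfl
  · exact (h.1 j h1).2
  · exact h.2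

lemma upto_empty (J : ℤ) {X : Sch k} (h : IsEmpty X.left) : Upto W J X := by
  have : ∀ j, (W.C j X).Good := fun j => Cmp.good_of_subsingleton (W.empty j X h).1 (W.empty j X h).2
  exact ⟨fun j _ => this j, (this J).2⟩

theorem dev_upto (J : ℤ) : Dev True (Upto W J) where
  iso {X Y} h e hX := ⟨fun j hj => (Cmp.iso (W.iso j X Y h e)).1 (hX.1 j hj),
    factor_epi (Cmp.isoFactor (W.iso J X Y h e)).2 hX.2⟩
  total {Z X U} i o h ht hZ hU := by
    obtain ⟨a, b, d, h1, h2, h3⟩ := W.sequence i o h ht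
    refine ⟨fun j hj => ?_, ?_⟩
    · obtain ⟨m, rfl⟩ : ∃ m, j = m + 1 := ⟨j - 1, by ring⟩
      exact five (d (m + 1)) (a (m + 1)) (b (m + 1)) (d m) (h3 (m + 1)) (h1 (m + 1)) (h2 m)
        (hU.epi W (by omega)) (hZ.1 _ hj) (hU.1 _ hj) (hZ.1 m (by omega)).1
    · obtain ⟨m, rfl⟩ : ∃ m, J = m + 1 := ⟨J - 1, by ring⟩
      exact four (a (m + 1)) (b (m + 1)) (d m) (h1 (m + 1)) (h2 m) hZ.2 hU.2 (hZ.1 m (by omega)).1
  opened {Z X U} i o h ht hZ hX := by
    obtain ⟨a, b, d, h1, h2, h3⟩ := W.sequence i o h ht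
    refine ⟨fun j hj => ?_, ?_⟩
    · obtain ⟨m, rfl⟩ : ∃ m, j = m + 1 := ⟨j - 1, by ring⟩
      exact five (a (m + 1)) (b (m + 1)) (d m) (a m) (h1 (m + 1)) (h2 m) (h3 m)
        (hZ.epi W (by omega)) (hX.1 _ hj) (hZ.1 m (by omega)) (hX.1 m (by omega)).1
    · obtain ⟨m, rfl⟩ : ∃ m, J = m + 1 := ⟨J - 1, by ring⟩
      exact four (b (m + 1)) (d m) (a m) (h2 m) (h3 m) hX.2 (hZ.1 m (by omega)).2 (hX.1 m (by omega)).1
  empty X h := upto_empty W J h

lemma all_iff_upto {X : Sch k} : All W X ↔ ∀ J, Upto W J X :=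
  ⟨fun h J => ⟨fun j _ => h j, (h J).2⟩, fun h j => (h (j + 1)).1 j (by omega)⟩

theorem dev_all : Dev True (All W) where
  iso h e hX := (all_iff_upto W).2 fun J => (dev_upto W J).iso h e ((all_iff_upto W).1 hX J)
  total i o h ht hZ hU := (all_iff_upto W).2 fun J =>
    (dev_upto W J).total i o h ht ((all_iff_upto W).1 hZ J) ((all_iff_upto W).1 hU J)
  opened i o h ht hZ hX := (all_iff_upto W).2 fun J =>
    (dev_upto W J).opened i o h ht ((all_iff_upto W).1 hZ J) ((all_iff_upto W).1 hX J)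
  empty X h := (all_iff_upto W).2 fun J => (dev_upto W J).empty X h

theorem clo_all : Pool.Agent.Q282.UK.Clo True (All W) where
  iso := (dev_all W).iso
  total := (dev_all W).total
  opened := (dev_all W).opened
  torus A _ _ _ h j := Cmp.factor (W.torus j A) (h _)

/-! ### Alterations -/

lemma alt_upto (J : ℤ) : Pool.Agent.U213.EM.Alt (Upto W J) fun X : Sch k => ∃ e : ℕ, PR X e where
  ft X hX := by
    obtain ⟨e, he⟩ := hX
    exact he.1
  alteration d A _ _ _ _ hd := by
    obtain ⟨w, Z, Y, V, i, o, e, hw, ht, hY, he, hZ, hf⟩ := W.alteration d A hd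
    refine ⟨w, Z, Y, V, i, o, hw, ht, ⟨e, hY⟩, ?_, hZ, fun hV => ⟨fun j hj => Cmp.factor (hf j) (hV.1 j hj),
      factor_epi (hf J) hV.2⟩⟩
    rw [hY.2.2.2.2]
    exact_mod_cast he

lemma alt_all : Pool.Agent.U213.EM.Alt (All W) fun X : Sch k => ∃ e : ℕ, PR X e where
  ft := (alt_upto W 0).ft
  alteration d A _ _ _ _ hd := by
    obtain ⟨w, Z, Y, V, i, o, e, hw, ht, hY, he, hZ, hf⟩ := W.alteration d A hd
    refine ⟨w, Z, Y, V, i, o, hw, ht, ⟨e, hY⟩, ?_, hZ, fun hV j => Cmp.factor (hf j) (hV j)⟩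
    rw [hY.2.2.2.2]
    exact_mod_cast he

/-! ### Proper regular schemes -/

/-- The comparison maps and the vanishing for a proper regular scheme. -/
lemma good_iff {X : Sch k} {d : ℕ} (hX : PR X d) (j : ℤ) :
    (W.C j X).Good ↔ (1 ≤ j → Subsingleton (W.C j X).A) := by
  constructor
  · intro h hj
    have h1 := (W.pure X d hX).2 j (by omega)
    exact h.1.subsingleton
  · intro h
    rcases lt_trichotomy j 0 with h1 | rfl | h1
    · exact Cmp.good_of_subsingleton (W.negative X d hX j h1) ((W.pure X d hX).2 j (by omega))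
    · exact (W.pure X d hX).1
    · exact Cmp.good_of_subsingleton (h (by omega)) ((W.pure X d hX).2 j (by omega))

lemma upto_iff {X : Sch k} {d : ℕ} (hX : PR X d) {J : ℤ} (hJ : 1 ≤ J) :
    Upto W J X ↔ ∀ j : ℤ, 1 ≤ j → j < J → Subsingleton (W.C j X).A := by
  constructor
  · exact fun h j hj hjJ => (good_iff W hX j).1 (h.1 j hjJ) hj
  · intro h
    refine ⟨fun j hj => (good_iff W hX j).2 fun h1 => h j h1 hj, fun y => ⟨0, ?_⟩⟩
    have h1 := (W.pure X d hX).2 J (by omega)
    exact Subsingleton.elim _ _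

lemma all_iff' {X : Sch k} {d : ℕ} (hX : PR X d) :
    All W X ↔ ∀ j : ℤ, 1 ≤ j → Subsingleton (W.C j X).A :=
  ⟨fun h j hj => (good_iff W hX j).1 (h j) hj, fun h j => (good_iff W hX j).2 (h j)⟩

/-- higher dimension -/
lemma exists_factor {X : Sch k} {d : ℕ} (hX : PR X d) (e : ℕ) :
    ∃ Y : Sch k, PR Y (d + e) ∧ ∀ j : ℤ, Subsingleton (W.C j Y).A → Subsingleton (W.C j X).A := by
  induction e with
  | zero => exact ⟨X, hX, fun j h => h⟩
  | succ e ih =>
    obtain ⟨Y, hY, h1⟩ := ih
    obtain ⟨Y', hY', h2⟩ := W.product Y _ hY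
    exact ⟨Y', hY', fun j h => h1 j (Cmp.factor_source (h2 j) h)⟩

end Pool.Agent.U998.ZC
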